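import Pool.Agent.BInc.Defs
set_option autoImplicit false

namespace Pool.Agent.BInc

variable {Γ : Set (Word × Word)} {n : ℕ}

/-- the congruence -/
def vc (Γ : Set (Word × Word)) (n : ℕ) : Con (FreeSemigroup (Fin n)) :=
  conGen (fun x y : FreeSemigroup (Fin n) =>
    ∃ e ∈ Γ, ∃ θ : Word →ₙ* FreeSemigroup (Fin n), x = θ e.1 ∧ y = θ e.2)

/-- class of a word -/
def cls (Γ : Set (Word × Word)) (n : ℕ) (w : FreeSemigroup (Fin n)) : Fr Γ n :=
  ((w : (vc Γ n).Quotient))

theorem cls_mul (x y : FreeSemigroup (Fin n)) : cls Γ n (x * y) = cls Γ n x * cls Γ n y := rfl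

theorem cls_surj (y : Fr Γ n) : ∃ w, cls Γ n w = y := by
  induction y using Quotient.inductionOn with
  | h w => exact ⟨w, rfl⟩

/-- free generators -/
def gen (Γ : Set (Word × Word)) (n : ℕ) (i : Fin n) : Fr Γ n := cls Γ n (FreeSemigroup.of i)

theorem word_ind {α : Type} {P : FreeSemigroup α → Prop} (h1 : ∀ i, P (FreeSemigroup.of i))
    (h2 : ∀ x y, P x → P y → P (x * y)) (w : FreeSemigroup α) : P w :=
  FreeSemigroup.recOnMul w h1 (fun _ _ hx hy => h2 _ _ hx hy)

theorem fr_ind {P : Fr Γ n → Prop} (h1 : ∀ i, P (gen Γ n i))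
    (h2 : ∀ x y, P x → P y → P (x * y)) (y : Fr Γ n) : P y := by
  obtain ⟨w, rfl⟩ := cls_surj y
  induction w using word_ind with
  | h1 i => exact h1 i
  | h2 x y hx hy => rw [cls_mul]; exact h2 _ _ hx hy

theorem hom_congr {α S : Type} [Semigroup S] {φ ψ : FreeSemigroup α →ₙ* S}
    (h : ∀ i, φ (FreeSemigroup.of i) = ψ (FreeSemigroup.of i)) (w : FreeSemigroup α) :
    φ w = ψ w := by
  induction w using word_ind with
  | h1 i => exact h i
  | h2 x y hx hy => rw [map_mul, map_mul, hx, hy]

theorem fr_inVar : InVar Γ (Fr Γ n) := by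
  intro e he φ
  choose f hf using fun i : ℕ => cls_surj (φ (FreeSemigroup.of i))
  have key : ∀ w : Word, φ w = cls Γ n (FreeSemigroup.lift f w) := by
    intro w
    induction w using word_ind with
    | h1 i => rw [FreeSemigroup.lift_of, hf]
    | h2 x y hx hy => rw [map_mul, map_mul, cls_mul, hx, hy]
  rw [key, key]
  change ((FreeSemigroup.lift f e.1 : FreeSemigroup (Fin n)) : (vc Γ n).Quotient) =
    ((FreeSemigroup.lift f e.2 : FreeSemigroup (Fin n)) : (vc Γ n).Quotient)
  rw [Con.eq]
  exact ConGen.Rel.of _ _ ⟨e, he, FreeSemigroup.lift f, rfl, rfl⟩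

theorem fr_lift {S : Type} [Semigroup S] (hS : InVar Γ S) (f : Fin n → S) :
    ∃ θ : Fr Γ n →ₙ* S, ∀ i, θ (gen Γ n i) = f i := by
  have hle : vc Γ n ≤ Con.ker (FreeSemigroup.lift f) := by
    refine Con.conGen_le.mpr ?_
    rintro x y ⟨e, he, θ, rfl, rfl⟩
    change FreeSemigroup.lift f (θ e.1) = FreeSemigroup.lift f (θ e.2)
    exact hS e he ((FreeSemigroup.lift f).comp θ)
  refine ⟨⟨fun y => Quotient.liftOn y (fun w => FreeSemigroup.lift f w)
    (fun a b h => hle h), ?_⟩, ?_⟩
  · intro x y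
    obtain ⟨x, rfl⟩ := cls_surj x
    obtain ⟨y, rfl⟩ := cls_surj y
    exact map_mul (FreeSemigroup.lift f) x y
  · intro i
    exact FreeSemigroup.lift_of f i

theorem fr_hom_ext {S : Type} [Semigroup S] {φ ψ : Fr Γ n →ₙ* S}
    (h : ∀ i, φ (gen Γ n i) = ψ (gen Γ n i)) (w : Fr Γ n) : φ w = ψ w := by
  induction w using fr_ind with
  | h1 i => exact h i
  | h2 x y hx hy => rw [map_mul, map_mul, hx, hy]

/-! ### powers -/
section
variable {S T : Type} [Semigroup S] [Semigroup T]

theorem pw_succ (j : ℕ) (x : S) : pw (j + 1) x = pw j x * x := rfl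

theorem pw_succ' (j : ℕ) (x : S) : pw (j + 1) x = x * pw j x := by
  induction j with
  | zero => rfl
  | succ j ih => rw [pw_succ, ih, mul_assoc, ← pw_succ, ih]

theorem pw_mul (i j : ℕ) (x : S) : pw i x * pw j x = pw (i + j + 1) x := by
  induction j with
  | zero => rfl
  | succ j ih => rw [pw_succ j, ← mul_assoc, ih]; rfl

theorem map_pw (φ : S →ₙ* T) (j : ℕ) (x : S) : φ (pw j x) = pw j (φ x) := by
  induction j with
  | zero => rfl
  | succ j ih => rw [pw_succ, map_mul, ih, pw_succ]

theorem pw_idem {x : S} (h : x * x = x) (j : ℕ) : pw j x = x := by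
  induction j with
  | zero => rfl
  | succ j ih => rw [pw_succ, ih, h]

theorem pw_left (j : ℕ) (p a : S) : ∃ s, pw j (p * a) = s * a := by
  cases j with
  | zero => exact ⟨p, rfl⟩
  | succ j => exact ⟨pw j (p * a) * p, by rw [pw_succ, mul_assoc]⟩

theorem pw_right (j : ℕ) (a q : S) : ∃ s, pw j (a * q) = a * s := by
  cases j with
  | zero => exact ⟨q, rfl⟩
  | succ j => exact ⟨q * pw j (a * q), by rw [pw_succ', mul_assoc]⟩

/-- `k - 1 = j`: law `x ^ (j + 2) = x` -/
theorem idem_of_law {j : ℕ} (h : ∀ x : S, pw (j + 1) x = x) (x : S) :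
    pw j x * pw j x = pw j x := by
  cases j with
  | zero => exact h x
  | succ j =>
    calc pw (j + 1) x * pw (j + 1) x = pw (j + 1) x * (x * pw j x) := by rw [← pw_succ']
      _ = pw (j + 1 + 1) x * pw j x := by rw [← mul_assoc, ← pw_succ]
      _ = x * pw j x := by rw [h]
      _ = pw (j + 1) x := by rw [← pw_succ']

/-- `a` is `J`-above `e` -/
def Jab (e a : S) : Prop := ∃ p q, e = p * a * q

theorem lemA {j : ℕ} (h : ∀ x : S, pw (j + 1) x = x) {e a : S} (ha : Jab e a) :
    ∃ s, e = s * (a * e) := by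
  obtain ⟨p, q, he⟩ := ha
  obtain ⟨s, hs⟩ := pw_left j p a
  refine ⟨s, ?_⟩
  calc e = p * a * q := he
    _ = pw (j + 1) (p * a) * q := by rw [h]
    _ = pw j (p * a) * (p * a * q) := by rw [pw_succ, mul_assoc]
    _ = pw j (p * a) * e := by rw [← he]
    _ = s * (a * e) := by rw [hs, mul_assoc]

theorem lemA' {j : ℕ} (h : ∀ x : S, pw (j + 1) x = x) {e a : S} (ha : Jab e a) :
    ∃ t, e = e * a * t := by
  obtain ⟨p, q, he⟩ := ha
  obtain ⟨s, hs⟩ := pw_right j a q
  refine ⟨s, ?_⟩
  calc e = p * (a * q) := by rw [he, mul_assoc]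
    _ = p * pw (j + 1) (a * q) := by rw [h]
    _ = p * (a * q) * pw j (a * q) := by rw [pw_succ']; simp only [mul_assoc]
    _ = e * pw j (a * q) := by rw [← mul_assoc, ← he]
    _ = e * a * s := by rw [hs, mul_assoc]

theorem pw_eae {e a : S} (he : e * e = e) (j : ℕ) : pw j (e * (a * e)) = e * pw j (a * e) := by
  have h1 : ∀ j, pw j (a * e) * e = pw j (a * e) := by
    intro j
    cases j with
    | zero => change a * e * e = a * e; rw [mul_assoc, he]
    | succ j => rw [pw_succ, mul_assoc, mul_assoc, he]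
  induction j with
  | zero => rfl
  | succ j ih =>
    rw [pw_succ, ih, pw_succ, mul_assoc, ← mul_assoc (pw j (a * e)) e, h1]

/-- the main lemma: `(e a e)^k = e` if `a` is above the idempotent `e` -/
theorem pw_eae_eq {j : ℕ} (h : ∀ x : S, pw (j + 1) x = x) {e a : S} (he : e * e = e)
    (ha : Jab e a) : pw j (e * a * e) = e := by
  obtain ⟨s, hs⟩ := lemA h ha
  rw [mul_assoc, pw_eae he]
  calc e * pw j (a * e) = s * (a * e) * pw j (a * e) := by rw [← hs]
    _ = s * pw (j + 1) (a * e) := by rw [mul_assoc, ← pw_succ']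
    _ = s * (a * e) := by rw [h]
    _ = e := hs.symm

/-- the main lemma again: regular `D`-classes are subsemigroups -/
theorem pw_eae_eq' {j : ℕ} (hp : ∀ x : S, pw j x * pw j x = pw j x)
    (hd : ∀ e a b : S, e * e = e → Jab e a → Jab e b → Jab e (a * b)) {e a : S}
    (he : e * e = e) (ha : Jab e a) : pw j (e * a * e) = e := by
  have hself : Jab e e := ⟨e, e, by rw [he, he]⟩
  have hx : Jab e (e * a * e) := hd _ _ _ he (hd _ _ _ he hself ha) hself
  set x := e * a * e with hxdef
  have hex : e * x = x := by rw [hxdef, ← mul_assoc, ← mul_assoc, he]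
  have hxe : x * e = x := by rw [hxdef, mul_assoc, he]
  have hJ : ∀ i, Jab e (pw i x) := by
    intro i
    induction i with
    | zero => exact hx
    | succ i ih => exact hd _ _ _ he ih hx
  have hef : ∀ i, e * pw i x = pw i x := by
    intro i
    cases i with
    | zero => exact hex
    | succ i => rw [pw_succ', ← mul_assoc, hex]
  have hfe : ∀ i, pw i x * e = pw i x := by
    intro i
    cases i with
    | zero => exact hxe
    | succ i => rw [pw_succ, mul_assoc, hxe]
  obtain ⟨p, q, hpq⟩ := hJ j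
  set f := pw j x with hf
  have hff : f * f = f := hp x
  set p' := e * p * f with hp'
  set q' := f * q * e with hq'
  have h1 : p' * q' = e := by
    calc p' * q' = e * (p * (f * f) * q) * e := by rw [hp', hq']; simp only [mul_assoc]
      _ = e := by rw [hff, ← hpq, he, he]
  have h2 : e * q' = q' := by
    rw [hq', ← mul_assoc, ← mul_assoc, hef j]
  have h3 : p' * e = p' := by
    rw [hp', mul_assoc, hfe j]
  have h4 : p' * f = p' := by rw [hp', mul_assoc, hff]
  have h5 : ∀ i, e * pw i q' = pw i q' := by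
    intro i
    cases i with
    | zero => exact h2
    | succ i => rw [pw_succ', ← mul_assoc, h2]
  have h6 : ∀ i, pw i p' * e = pw i p' := by
    intro i
    cases i with
    | zero => exact h3
    | succ i => rw [pw_succ, mul_assoc, h3]
  have h7 : ∀ i, pw i p' * f = pw i p' := by
    intro i
    cases i with
    | zero => exact h4
    | succ i => rw [pw_succ, mul_assoc, h4]
  have h8 : ∀ i, pw i p' * pw i q' = e := by
    intro i
    induction i with
    | zero => exact h1
    | succ i ih =>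
      calc pw (i + 1) p' * pw (i + 1) q' = pw i p' * p' * (q' * pw i q') := by
            rw [pw_succ i p', pw_succ' i q']
        _ = pw i p' * ((p' * q') * pw i q') := by simp only [mul_assoc]
        _ = e := by rw [h1, h5, ih]
  have h9 : pw j p' = e := by
    calc pw j p' = pw j p' * e := (h6 j).symm
      _ = pw j p' * (pw j p' * pw j q') := by rw [h8]
      _ = pw j p' * pw j q' := by rw [← mul_assoc, hp]
      _ = e := h8 j
  have h10 := h7 j
  rw [h9, hef j] at h10
  exact h10

theorem jab_mul {j : ℕ} (h : ∀ x : S, pw (j + 1) x = x) {e a b : S} (he : e * e = e)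
    (ha : Jab e a) (hb : Jab e b) : Jab e (a * b) := by
  obtain ⟨s, hs⟩ := lemA h ha
  obtain ⟨t, ht⟩ := lemA' h hb
  -- e = s (a e b) t
  have h1 : e = s * (a * e * b) * t := by
    calc e = e * e := he.symm
      _ = s * (a * e) * (e * b * t) := by rw [← hs, ← ht]
      _ = s * (a * (e * e) * b) * t := by simp only [mul_assoc]
      _ = s * (a * e * b) * t := by rw [he]
  -- a e b = (a e b)^(j+2)
  obtain ⟨r, hr⟩ := pw_right j a (e * b)
  have h2 : a * e * b = (a * e) * (b * a) * r := by
    calc a * e * b = pw (j + 1) (a * e * b) := (h _).symm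
      _ = a * e * b * pw j (a * e * b) := pw_succ' _ _
      _ = a * e * b * pw j (a * (e * b)) := by rw [mul_assoc a e b]
      _ = a * e * b * (a * r) := by rw [hr]
      _ = (a * e) * (b * a) * r := by simp only [mul_assoc]
  obtain ⟨r', hr'⟩ := pw_left j b a
  obtain ⟨r'', hr''⟩ := pw_right j b a
  have h3 : ∃ r3, b * a = b * (a * b) * r3 := by
    refine ⟨r'', ?_⟩
    calc b * a = pw (j + 1) (b * a) := (h _).symm
      _ = b * a * pw j (b * a) := pw_succ' _ _
      _ = b * (a * b) * r'' := by rw [hr'']; simp only [mul_assoc]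
  obtain ⟨r3, h3⟩ := h3
  refine ⟨s * (a * e) * b, r3 * r * t, ?_⟩
  calc e = s * (a * e * b) * t := h1
    _ = s * ((a * e) * (b * (a * b) * r3) * r) * t := by rw [h2, h3]
    _ = s * (a * e) * b * (a * b) * (r3 * r * t) := by simp only [mul_assoc]

theorem jab_self {e : S} (he : e * e = e) : Jab e e := ⟨e, e, by rw [he, he]⟩

theorem jab_of_mul_left {e a b : S} (h : Jab e (a * b)) : Jab e a := by
  obtain ⟨p, q, h⟩ := h
  exact ⟨p, b * q, by rw [h]; simp only [mul_assoc]⟩

theorem jab_of_mul_right {e a b : S} (h : Jab e (a * b)) : Jab e b := by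
  obtain ⟨p, q, h⟩ := h
  exact ⟨p * a, q, by rw [h]; simp only [mul_assoc]⟩

end
end Pool.Agent.BInc
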