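import Pool.Agent.BInc.Semilat
set_option autoImplicit false

namespace Pool.Agent.BInc

section
variable {Γ : Set (Word × Word)}

theorem inVar_prod {S T : Type} [Semigroup S] [Semigroup T] (hS : InVar Γ S) (hT : InVar Γ T) :
    InVar Γ (S × T) := by
  intro e he φ
  have h1 := hS e he ((MulHom.fst S T).comp φ)
  have h2 := hT e he ((MulHom.snd S T).comp φ)
  exact Prod.ext h1 h2

theorem b2_some (i j k l : Bool) :
    B2.e i j * B2.e k l = if j = k then B2.e i l else B2.zero := rfl

theorem b2_none_left (x : B2) : B2.zero * x = B2.zero := by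
  cases x <;> rfl

theorem b2_none_right (x : B2) : x * B2.zero = B2.zero := by
  cases x <;> rfl

/-- matrix units in `T` -/
def MU {T : Type} [Semigroup T] (P Q : T) : Bool → Bool → T
  | false, false => P * Q
  | false, true => P
  | true, false => Q
  | true, true => Q * P

theorem MU_mul {T : Type} [Semigroup T] {P Q : T} (h1 : P * Q * P = P) (h2 : Q * P * Q = Q)
    (i j l : Bool) : MU P Q i j * MU P Q j l = MU P Q i l := by
  have h3 : P * (Q * P) = P := by rw [← mul_assoc, h1]
  have h4 : Q * (P * Q) = Q := by rw [← mul_assoc, h2]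
  cases i <;> cases j <;> cases l <;> simp only [MU]
  · rw [← mul_assoc, h1]
  · rw [h1]
  · rw [h3]
  · rw [h4]
  · rw [h2]
  · rw [← mul_assoc, h2]

theorem MU_dead {T : Type} [Semigroup T] {P Q E : T} (h1 : ¬ Jab E (P * P))
    (h2 : ¬ Jab E (Q * Q)) (i j k l : Bool) (hjk : j ≠ k) :
    ¬ Jab E (MU P Q i j * MU P Q k l) := by
  intro h
  cases j <;> cases k
  · exact hjk rfl
  · apply h2
    cases i <;> cases l <;> simp only [MU] at h
    · -- P Q Q
      rw [mul_assoc] at h; exact jab_of_mul_right h
    · rw [mul_assoc, ← mul_assoc Q Q P] at h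
      exact jab_of_mul_left (jab_of_mul_right h)
    · exact h
    · rw [← mul_assoc] at h; exact jab_of_mul_left h
  · apply h1
    cases i <;> cases l <;> simp only [MU] at h
    · rw [← mul_assoc] at h; exact jab_of_mul_left h
    · exact h
    · rw [mul_assoc, ← mul_assoc P P Q] at h
      exact jab_of_mul_left (jab_of_mul_right h)
    · rw [mul_assoc] at h; exact jab_of_mul_right h
  · exact hjk rfl

theorem b2_of_units {T : Type} [Semigroup T] (hT : InVar Γ T) {P Q E : T}
    (h1 : P * Q * P = P) (h2 : Q * P * Q = Q) (hE1 : Jab E P) (hE2 : Jab E Q)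
    (hd1 : ¬ Jab E (P * P)) (hd2 : ¬ Jab E (Q * Q)) : InVar Γ B2 := by
  intro e0 he0 φ
  let M := MU P Q
  let ψ : Word →ₙ* T := FreeSemigroup.lift (fun t =>
    match φ (FreeSemigroup.of t) with
    | .e i j => M i j
    | .zero => P * P)
  have key : ∀ w : Word, (∀ i j, φ w = B2.e i j → ψ w = M i j) ∧
      (φ w = B2.zero → ¬ Jab E (ψ w)) := by
    intro w
    induction w using word_ind with
    | h1 t =>
      have hψ : ψ (FreeSemigroup.of t) = match φ (FreeSemigroup.of t) with
        | .e i j => M i j
        | .zero => P * P := FreeSemigroup.lift_of _ _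
      constructor
      · intro i j h
        rw [hψ, h]
      · intro h
        rw [hψ, h]
        exact hd1
    | h2 x y hx hy =>
      rw [map_mul, map_mul]
      rcases hφx : φ x with _ | ⟨i, j⟩
      · constructor
        · intro i j h
          rw [b2_none_left] at h
          exact absurd h (by simp)
        · intro _ h
          exact hx.2 hφx (jab_of_mul_left h)
      · rcases hφy : φ y with _ | ⟨k, l⟩
        · constructor
          · intro i j h
            rw [b2_none_right] at h
            exact absurd h (by simp)
          · intro _ h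
            exact hy.2 hφy (jab_of_mul_right h)
        · have e1 := hx.1 i j hφx
          have e2 := hy.1 k l hφy
          rw [e1, e2]
          by_cases hjk : j = k
          · subst hjk
            constructor
            · intro i' l' h
              rw [b2_some, if_pos rfl] at h
              obtain ⟨rfl, rfl⟩ := B2.e.inj h
              exact MU_mul h1 h2 _ _ _
            · intro h
              rw [b2_some, if_pos rfl] at h
              exact absurd h (by simp)
          · constructor
            · intro i' l' h
              rw [b2_some, if_neg hjk] at h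
              exact absurd h (by simp)
            · intro _
              exact MU_dead hd1 hd2 _ _ _ _ hjk
  have halive : ∀ i j, Jab E (M i j) := by
    have hPQ : Jab E (P * Q) := by
      have : Jab E (P * Q * P) := by rw [h1]; exact hE1
      exact jab_of_mul_left this
    have hQP : Jab E (Q * P) := by
      have : Jab E (Q * P * Q) := by rw [h2]; exact hE2
      exact jab_of_mul_left this
    intro i j
    cases i <;> cases j
    · exact hPQ
    · exact hE1
    · exact hE2
    · exact hQP
  have hinj : ∀ i j k l, M i j = M k l → (i, j) = (k, l) := by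
    intro i j k l h
    have hj : j = l := by
      by_contra hne
      have h3 : M i j * M j j = M i j := MU_mul h1 h2 _ _ _
      have h4 := halive i j
      rw [← h3, h] at h4
      exact MU_dead hd1 hd2 k l j j (Ne.symm hne) h4
    have hi : i = k := by
      by_contra hne
      have h3 : M i i * M i j = M i j := MU_mul h1 h2 _ _ _
      have h4 := halive i j
      rw [← h3, h] at h4
      exact MU_dead hd1 hd2 i i k l hne h4
    rw [hj, hi]
  have heq := hT e0 he0 ψ
  rcases h3 : φ e0.1 with _ | ⟨i, j⟩
  · rcases h4 : φ e0.2 with _ | ⟨k, l⟩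
    · rfl
    · exfalso
      have h5 := (key _).2 h3
      rw [heq, (key _).1 k l h4] at h5
      exact h5 (halive k l)
  · rcases h4 : φ e0.2 with _ | ⟨k, l⟩
    · exfalso
      have h5 := (key _).2 h4
      rw [← heq, (key _).1 i j h3] at h5
      exact h5 (halive i j)
    · have h5 := (key _).1 i j h3
      rw [heq, (key _).1 k l h4] at h5
      obtain ⟨rfl, rfl⟩ := Prod.mk.inj (hinj _ _ _ _ h5)
      rfl

/-- if `B_2` is not in the variety, then regular `D`-classes are subsemigroups -/
theorem dsub_of_not_b2 (hB : ¬ InVar Γ B2) {S : Type} [Semigroup S] (hS : InVar Γ S)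
    (e a b : S) (he : e * e = e) (ha : Jab e a) (hb : Jab e b) : Jab e (a * b) := by
  by_contra hnot
  obtain ⟨x, y, hxy⟩ := ha
  obtain ⟨x', y', hxy'⟩ := hb
  apply hB
  set α := e * x * a with hα
  set β := y * e with hβ
  set α' := e * x' with hα'
  set β' := b * y' * e with hβ'
  have h1 : α * β = e := by
    calc α * β = e * (x * a * y) * e := by rw [hα, hβ]; simp only [mul_assoc]
      _ = e := by rw [← hxy, he, he]
  have h2 : α' * β' = e := by
    calc α' * β' = e * (x' * b * y') * e := by rw [hα', hβ']; simp only [mul_assoc]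
      _ = e := by rw [← hxy', he, he]
  have h3 : β * e = β := by rw [hβ, mul_assoc, he]
  have h4 : β' * e = β' := by rw [hβ', mul_assoc, he]
  set p := β * α' with hp
  set q := β' * α with hq
  have hpqp : p * q * p = p := by
    calc p * q * p = β * (α' * β') * (α * β) * α' := by rw [hp, hq]; simp only [mul_assoc]
      _ = p := by rw [h1, h2, h3, h3]
  have hqpq : q * p * q = q := by
    calc q * p * q = β' * (α * β) * (α' * β') * α := by rw [hp, hq]; simp only [mul_assoc]
      _ = q := by rw [h1, h2, h4, h4]
  have hdead : ¬ Jab e (q * q) := by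
    intro h
    apply hnot
    have h5 : q * q = (β' * e * x) * (a * b) * (y' * e * α) := by
      rw [hq, hα, hβ']; simp only [mul_assoc]
    rw [h5] at h
    exact jab_of_mul_right (jab_of_mul_left h)
  have hP : e = α * p * β' := by
    calc e = e * e := he.symm
      _ = (α * β) * (α' * β') := by rw [h1, h2]
      _ = α * p * β' := by rw [hp]; simp only [mul_assoc]
  have hQ : e = α' * q * β := by
    calc e = e * e := he.symm
      _ = (α' * β') * (α * β) := by rw [h1, h2]
      _ = α' * q * β := by rw [hq]; simp only [mul_assoc]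
  refine b2_of_units (T := S × S) (inVar_prod hS hS) (P := (p, q)) (Q := (q, p)) (E := (e, e))
    (Prod.ext hpqp hqpq) (Prod.ext hqpq hpqp) ⟨(α, α'), (β', β), Prod.ext hP hQ⟩
    ⟨(α', α), (β, β'), Prod.ext hQ hP⟩ ?_ ?_
  · rintro ⟨u, v, huv⟩
    exact hdead ⟨u.2, v.2, congrArg Prod.snd huv⟩
  · rintro ⟨u, v, huv⟩
    exact hdead ⟨u.1, v.1, congrArg Prod.fst huv⟩

theorem main_no_b2 (hper : Periodic Γ) (hSL : HasSemilattices Γ) (hB : ¬ InVar Γ B2) :
    Separated Γ := by
  obtain ⟨j, hj⟩ := hper
  exact separated_of_semilattices hj (fun _ _ hS => dsub_of_not_b2 hB hS) hSL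

end
end Pool.Agent.BInc
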