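import Mathlib
set_option autoImplicit false

/-!
# Identical inclusions in semigroups

Words, identities, identical inclusions, relatively free semigroups of a semigroup variety.
-/

namespace Pool.Agent.BInc

/-- words over the alphabet `x_0, x_1, x_2, ...`: the free semigroup (nonempty words) -/
abbrev Word := FreeSemigroup ℕ

/-- the semigroup `S` satisfies the identical inclusion `u ∈ W`: for every homomorphism `φ` from
the free semigroup to `S` there is `w ∈ W` with `φ u = φ w` -/
def SatIncl (S : Type) [Semigroup S] (u : Word) (W : Set Word) : Prop :=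
  ∀ φ : Word →ₙ* S, ∃ w ∈ W, φ u = φ w

/-- inclusive equivalence: the same identical inclusions (with nonempty right-hand side) hold -/
def InclEquiv (S T : Type) [Semigroup S] [Semigroup T] : Prop :=
  ∀ (u : Word) (W : Set Word), W.Nonempty → (SatIncl S u W ↔ SatIncl T u W)

/-- `S` belongs to the variety defined by the set `Γ` of identities `e.1 = e.2` -/
def InVar (Γ : Set (Word × Word)) (S : Type) [Semigroup S] : Prop :=
  ∀ e ∈ Γ, ∀ φ : Word →ₙ* S, φ e.1 = φ e.2

/-- the free semigroup `F_n(V)` of rank `n` in the variety `V` defined by `Γ`: the quotient of the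
free semigroup on `n` letters by the congruence generated by all substitution instances of the
identities in `Γ` -/
def Fr (Γ : Set (Word × Word)) (n : ℕ) : Type :=
  (conGen (fun x y : FreeSemigroup (Fin n) =>
    ∃ e ∈ Γ, ∃ θ : Word →ₙ* FreeSemigroup (Fin n), x = θ e.1 ∧ y = θ e.2)).Quotient

instance (Γ : Set (Word × Word)) (n : ℕ) : Semigroup (Fr Γ n) :=
  inferInstanceAs (Semigroup (Con.Quotient _))

/-- the finitely generated free semigroups of the variety are separated by identical inclusions -/
def Separated (Γ : Set (Word × Word)) : Prop :=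
  ∀ m n : ℕ, 1 ≤ m → 1 ≤ n → m ≠ n → ¬ InclEquiv (Fr Γ m) (Fr Γ n)

/-- `pw j x = x ^ (j + 1)` -/
def pw {S : Type} [Semigroup S] : ℕ → S → S
  | 0, x => x
  | j + 1, x => pw j x * x

/-- every semigroup in the variety satisfies `x ^ (k + 1) = x` -/
def PowLaw (Γ : Set (Word × Word)) (k : ℕ) : Prop :=
  ∀ (S : Type) [Semigroup S], InVar Γ S → ∀ x : S, pw k x = x

/-- periodic variety: for some `k ≥ 1` all elements `x ^ k` are idempotent -/
def Periodic (Γ : Set (Word × Word)) : Prop :=
  ∃ j : ℕ, ∀ (S : Type) [Semigroup S], InVar Γ S → ∀ x : S, pw j x * pw j x = pw j x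

/-- the five-element Brandt semigroup: matrix units `e_ij` (`i, j` in a two-element set) and `0` -/
inductive B2 : Type
  | zero : B2
  | e : Bool → Bool → B2

instance : Mul B2 where
  mul x y := match x, y with
    | .e i j, .e k l => if j = k then .e i l else .zero
    | _, _ => .zero

instance : Semigroup B2 where
  mul_assoc := by
    intro x y z
    rcases x with _ | ⟨_ | _, _ | _⟩ <;> rcases y with _ | ⟨_ | _, _ | _⟩ <;>
      rcases z with _ | ⟨_ | _, _ | _⟩ <;> rfl

/-- the variety contains all semilattices (commutative idempotent semigroups) -/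
def HasSemilattices (Γ : Set (Word × Word)) : Prop :=
  ∀ (S : Type) [CommSemigroup S], (∀ x : S, x * x = x) → InVar Γ S

/-- the variety contains a nontrivial group -/
def HasGroup (Γ : Set (Word × Word)) : Prop :=
  ∃ (G : Type) (_ : Group G), Nontrivial G ∧ InVar Γ G

/-- every semigroup in the variety is a rectangular band: `x y x = x` -/
def IsRect (Γ : Set (Word × Word)) : Prop :=
  ∀ (S : Type) [Semigroup S], InVar Γ S → ∀ x y : S, x * y * x = x

end Pool.Agent.BInc
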