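import Pool.Agent.BInc.Basic
set_option autoImplicit false

namespace Pool.Agent.BInc

/-- finite subsets under union -/
structure U (α : Type) where
  /-- the set -/
  s : Finset α

instance {α : Type} [DecidableEq α] : CommSemigroup (U α) where
  mul x y := ⟨x.s ∪ y.s⟩
  mul_assoc _ _ _ := congrArg U.mk (Finset.union_assoc _ _ _)
  mul_comm _ _ := congrArg U.mk (Finset.union_comm _ _)

theorem U_mul {α : Type} [DecidableEq α] (x y : U α) : (x * y).s = x.s ∪ y.s := rfl

theorem U_idem {α : Type} [DecidableEq α] (x : U α) : x * x = x :=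
  congrArg U.mk (Finset.union_self _)

/-- letters of a word -/
def cN : Word →ₙ* U ℕ := FreeSemigroup.lift (fun i => ⟨{i}⟩)

/-- letters of a word -/
def letters (w : Word) : Finset ℕ := (cN w).s

theorem letters_of (i : ℕ) : letters (FreeSemigroup.of i) = {i} := rfl

theorem letters_mul (x y : Word) : letters (x * y) = letters x ∪ letters y := by
  unfold letters; rw [map_mul, U_mul]

theorem letters_pw (j : ℕ) (x : Word) : letters (pw j x) = letters x := by
  unfold letters; rw [map_pw, pw_idem (U_idem _)]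

/-- Zimin type words -/
def Z (j : ℕ) : ℕ → Word
  | 0 => pw j (FreeSemigroup.of 0)
  | i + 1 => pw j (Z j i * FreeSemigroup.of (i + 1) * Z j i)

theorem letters_Z (j i : ℕ) : letters (Z j i) = Finset.range (i + 1) := by
  induction i with
  | zero => rw [Z, letters_pw, letters_of]; rfl
  | succ i ih =>
    rw [Z, letters_pw, letters_mul, letters_mul, ih, letters_of]
    ext t
    simp only [Finset.mem_union, Finset.mem_range, Finset.mem_singleton]
    omega

theorem Z_idem {S : Type} [Semigroup S] {j : ℕ} (hp : ∀ x : S, pw j x * pw j x = pw j x)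
    (φ : Word →ₙ* S) (i : ℕ) : φ (Z j i) * φ (Z j i) = φ (Z j i) := by
  cases i with
  | zero => rw [Z, map_pw]; exact hp _
  | succ i => rw [Z, map_pw]; exact hp _

section
variable {Γ : Set (Word × Word)}

theorem exists_content (hSL : HasSemilattices Γ) (n : ℕ) :
    ∃ c : Fr Γ n →ₙ* U (Fin n), ∀ i, c (gen Γ n i) = ⟨{i}⟩ :=
  fr_lift (hSL (U (Fin n)) U_idem) _

theorem jab_gen {n : ℕ} {c : Fr Γ n →ₙ* U (Fin n)} (hc : ∀ i, c (gen Γ n i) = ⟨{i}⟩)
    {e : Fr Γ n} (y : Fr Γ n) : Jab e y → ∀ t ∈ (c y).s, Jab e (gen Γ n t) := by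
  induction y using fr_ind with
  | h1 i =>
    intro h t ht
    rw [hc] at ht
    rw [Finset.mem_singleton.mp ht]
    exact h
  | h2 x y hx hy =>
    intro h t ht
    rw [map_mul, U_mul, Finset.mem_union] at ht
    rcases ht with ht | ht
    · exact hx (jab_of_mul_left h) t ht
    · exact hy (jab_of_mul_right h) t ht

theorem jab_of_gens {n : ℕ}
    (hd : ∀ e a b : Fr Γ n, e * e = e → Jab e a → Jab e b → Jab e (a * b))
    {c : Fr Γ n →ₙ* U (Fin n)} (hc : ∀ i, c (gen Γ n i) = ⟨{i}⟩)
    {e : Fr Γ n} (he : e * e = e) (y : Fr Γ n) :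
    (∀ t ∈ (c y).s, Jab e (gen Γ n t)) → Jab e y := by
  induction y using fr_ind with
  | h1 i =>
    intro h'
    exact h' i (by rw [hc]; exact Finset.mem_singleton_self i)
  | h2 x y hx hy =>
    intro h'
    rw [map_mul, U_mul] at h'
    exact hd _ _ _ he (hx fun t ht => h' t (Finset.mem_union_left _ ht))
      (hy fun t ht => h' t (Finset.mem_union_right _ ht))

theorem jab_of_content {n : ℕ}
    (hd : ∀ e a b : Fr Γ n, e * e = e → Jab e a → Jab e b → Jab e (a * b))
    {c : Fr Γ n →ₙ* U (Fin n)} (hc : ∀ i, c (gen Γ n i) = ⟨{i}⟩)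
    {e : Fr Γ n} (he : e * e = e) {y : Fr Γ n} (hy : (c y).s ⊆ (c e).s) : Jab e y :=
  jab_of_gens hd hc he y fun _ ht => jab_gen hc e (jab_self he) _ (hy ht)

theorem content_nonempty {n : ℕ} {c : Fr Γ n →ₙ* U (Fin n)} (hc : ∀ i, c (gen Γ n i) = ⟨{i}⟩)
    (y : Fr Γ n) : 1 ≤ (c y).s.card := by
  induction y using fr_ind with
  | h1 i => rw [hc]; exact le_of_eq (Finset.card_singleton i).symm
  | h2 x y hx hy =>
    rw [map_mul, U_mul]
    exact hx.trans (Finset.card_le_card Finset.subset_union_left)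

/-- the inclusion holds in small rank -/
theorem holds_small {m N j : ℕ} (hSL : HasSemilattices Γ)
    (h : ∀ x : Fr Γ m, pw j x * pw j x = pw j x)
    (hd : ∀ e a b : Fr Γ m, e * e = e → Jab e a → Jab e b → Jab e (a * b))
    (hmN : m ≤ N) : SatIncl (Fr Γ m) (Z j N) {w | letters w ⊂ Finset.range (N + 1)} := by
  intro φ
  obtain ⟨c, hc⟩ := exists_content hSL m
  -- a repetition in the content chain
  have hstep : ∀ i, (c (φ (Z j (i + 1)))).s = (c (φ (Z j i))).s ∪ (c (φ (FreeSemigroup.of (i + 1)))).s := by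
    intro i
    rw [Z, map_pw, map_pw, pw_idem (U_idem _), map_mul, map_mul, map_mul, map_mul, U_mul, U_mul]
    ext t
    simp only [Finset.mem_union]
    tauto
  have hrep : ∃ i < N, (c (φ (FreeSemigroup.of (i + 1)))).s ⊆ (c (φ (Z j i))).s := by
    by_contra hcon
    push Not at hcon
    have hcard : ∀ i, i ≤ N → i + 1 ≤ (c (φ (Z j i))).s.card := by
      intro i
      induction i with
      | zero => intro _; exact content_nonempty hc _
      | succ i ih =>
        intro hi
        have h1 := ih (by omega)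
        have h2 : (c (φ (Z j i))).s ⊂ (c (φ (Z j (i + 1)))).s := by
          rw [hstep, Finset.ssubset_iff_subset_ne]
          refine ⟨Finset.subset_union_left, fun heq => hcon i (by omega) ?_⟩
          rw [heq]
          exact Finset.subset_union_right
        have h3 := Finset.card_lt_card h2
        omega
    have h1 := hcard N le_rfl
    have h2 := Finset.card_le_univ (c (φ (Z j N))).s
    rw [Fintype.card_fin] at h2
    omega
  obtain ⟨i, hi, hsub⟩ := hrep
  have heq : φ (Z j (i + 1)) = φ (Z j i) := by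
    rw [Z, map_pw, map_mul, map_mul]
    exact pw_eae_eq' h hd (Z_idem h φ i) (jab_of_content hd hc (Z_idem h φ i) hsub)
  -- the substitution
  let θ : Word →ₙ* Word :=
    FreeSemigroup.lift (fun l => if l = i + 1 then Z j i else FreeSemigroup.of l)
  have hθ1 : θ (FreeSemigroup.of (i + 1)) = Z j i := by
    change FreeSemigroup.lift _ (FreeSemigroup.of (i + 1)) = _
    rw [FreeSemigroup.lift_of, if_pos rfl]
  have hθ2 : ∀ l, l ≠ i + 1 → θ (FreeSemigroup.of l) = FreeSemigroup.of l := by
    intro l hl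
    change FreeSemigroup.lift _ (FreeSemigroup.of l) = _
    rw [FreeSemigroup.lift_of, if_neg hl]
  have hval : ∀ l, φ (θ (Z j l)) = φ (Z j l) := by
    intro l
    induction l with
    | zero => rw [Z, map_pw, hθ2 0 (by omega)]
    | succ l ih =>
      by_cases hl : l = i
      · subst hl
        rw [heq, Z, map_pw, map_mul, map_mul, hθ1, map_pw, map_mul, map_mul, ih, Z_idem h φ l,
          Z_idem h φ l, pw_idem (Z_idem h φ l)]
      · have h1 : l + 1 ≠ i + 1 := by omega
        rw [Z, map_pw, map_mul, map_mul, hθ2 _ h1, map_pw, map_mul, map_mul, ih, map_pw,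
          map_mul, map_mul]
  have hlet : ∀ l, ∀ t ∈ letters (θ (Z j l)), t ≠ i + 1 ∧ t ≤ max l i := by
    intro l
    have hbase : ∀ l', ∀ t ∈ letters (θ (FreeSemigroup.of l')), t ≠ i + 1 ∧ t ≤ max l' i := by
      intro l' t ht
      by_cases hl : l' = i + 1
      · rw [hl, hθ1, letters_Z, Finset.mem_range] at ht
        refine ⟨by omega, ?_⟩
        have := le_max_right l' i
        omega
      · rw [hθ2 _ hl, letters_of, Finset.mem_singleton] at ht
        rw [ht]
        exact ⟨hl, le_max_left _ _⟩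
    induction l with
    | zero => intro t ht; rw [Z, map_pw, letters_pw] at ht; exact hbase 0 t ht
    | succ l ih =>
      intro t ht
      rw [Z, map_pw, map_mul, map_mul, letters_pw, letters_mul, letters_mul] at ht
      simp only [Finset.mem_union] at ht
      have h4 : max l i ≤ max (l + 1) i := max_le_max_right _ (Nat.le_succ l)
      rcases ht with (ht | ht) | ht
      · exact ⟨(ih t ht).1, (ih t ht).2.trans h4⟩
      · exact hbase (l + 1) t ht
      · exact ⟨(ih t ht).1, (ih t ht).2.trans h4⟩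
  refine ⟨θ (Z j N), ?_, (hval N).symm⟩
  change letters (θ (Z j N)) ⊂ Finset.range (N + 1)
  rw [Finset.ssubset_iff_of_subset]
  · refine ⟨i + 1, Finset.mem_range.mpr (by omega), fun hmem => (hlet N _ hmem).1 rfl⟩
  · intro t ht
    have := (hlet N t ht).2
    rw [max_eq_left hi.le] at this
    exact Finset.mem_range.mpr (by omega)

/-- the inclusion fails in rank `N + 1` -/
theorem fails_large {N j : ℕ} (hSL : HasSemilattices Γ) :
    ¬ SatIncl (Fr Γ (N + 1)) (Z j N) {w | letters w ⊂ Finset.range (N + 1)} := by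
  intro hS
  obtain ⟨c, hc⟩ := exists_content hSL (N + 1)
  let φ : Word →ₙ* Fr Γ (N + 1) :=
    FreeSemigroup.lift (fun l => if hl : l < N + 1 then gen Γ (N + 1) ⟨l, hl⟩ else gen Γ (N + 1) 0)
  have hφ : ∀ l (hl : l < N + 1), φ (FreeSemigroup.of l) = gen Γ (N + 1) ⟨l, hl⟩ := by
    intro l hl
    change FreeSemigroup.lift _ (FreeSemigroup.of l) = _
    rw [FreeSemigroup.lift_of, dif_pos hl]
  have key : ∀ w : Word, letters w ⊆ Finset.range (N + 1) →
      ∀ t : Fin (N + 1), t ∈ (c (φ w)).s ↔ (t : ℕ) ∈ letters w := by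
    intro w
    induction w using word_ind with
    | h1 l =>
      intro hw t
      rw [letters_of] at hw ⊢
      have hl : l < N + 1 := Finset.mem_range.mp (hw (Finset.mem_singleton_self l))
      rw [hφ l hl, hc, Finset.mem_singleton, Finset.mem_singleton, Fin.ext_iff]
    | h2 x y hx hy =>
      intro hw t
      rw [letters_mul] at hw ⊢
      rw [map_mul, map_mul, U_mul, Finset.mem_union, Finset.mem_union,
        hx (Finset.union_subset_left hw), hy (Finset.union_subset_right hw)]
  obtain ⟨w, hw, heq⟩ := hS φ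
  have hw' : letters w ⊂ Finset.range (N + 1) := hw
  obtain ⟨t, ht1, ht2⟩ := (Finset.ssubset_iff_of_subset hw'.subset).mp hw'
  have ht : t < N + 1 := Finset.mem_range.mp ht1
  have h1 : (⟨t, ht⟩ : Fin (N + 1)) ∈ (c (φ (Z j N))).s := by
    rw [key _ (by rw [letters_Z])]
    rw [letters_Z]
    exact ht1
  rw [heq, key _ hw'.subset] at h1
  exact ht2 h1

theorem separated_of_semilattices {j : ℕ}
    (hp : ∀ (S : Type) [Semigroup S], InVar Γ S → ∀ x : S, pw j x * pw j x = pw j x)
    (hd : ∀ (S : Type) [Semigroup S], InVar Γ S →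
      ∀ e a b : S, e * e = e → Jab e a → Jab e b → Jab e (a * b))
    (hSL : HasSemilattices Γ) : Separated Γ := by
  have hmain : ∀ m n, 1 ≤ m → m < n → ∃ (u : Word) (W : Set Word), W.Nonempty ∧
      SatIncl (Fr Γ m) u W ∧ ¬ SatIncl (Fr Γ n) u W := by
    intro m n hm hmn
    obtain ⟨N, rfl⟩ : ∃ N, n = N + 1 := ⟨n - 1, by omega⟩
    refine ⟨Z j N, {w | letters w ⊂ Finset.range (N + 1)}, ⟨FreeSemigroup.of 0, ?_⟩,
      holds_small hSL (hp _ fr_inVar) (hd _ fr_inVar) (by omega), fails_large hSL⟩
    change letters (FreeSemigroup.of 0) ⊂ Finset.range (N + 1)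
    rw [letters_of, Finset.ssubset_iff_of_subset]
    · exact ⟨1, Finset.mem_range.mpr (by omega), by simp⟩
    · intro t ht
      rw [Finset.mem_singleton] at ht
      exact Finset.mem_range.mpr (by omega)
  intro m n hm hn hmn hE
  rcases lt_or_gt_of_ne hmn with hlt | hlt
  · obtain ⟨u, W, hW, h1, h2⟩ := hmain m n hm hlt
    exact h2 ((hE u W hW).mp h1)
  · obtain ⟨u, W, hW, h1, h2⟩ := hmain n m hn hlt
    exact h2 ((hE u W hW).mpr h1)

end
end Pool.Agent.BInc
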