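import Pool.Agent.BInc.Brandt
set_option autoImplicit false

namespace Pool.Agent.BInc

section
variable {Γ : Set (Word × Word)}

theorem semi_absorb {S : Type} [CommSemigroup S] (hS : ∀ x : S, x * x = x) (φ : Word →ₙ* S)
    (l : ℕ) (w : Word) : l ∈ letters w → φ (FreeSemigroup.of l) * φ w = φ w := by
  induction w using word_ind with
  | h1 i =>
    intro hl
    rw [letters_of, Finset.mem_singleton] at hl
    rw [hl, hS]
  | h2 x y hx hy =>
    intro hl
    rw [letters_mul, Finset.mem_union] at hl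
    rw [map_mul]
    rcases hl with hl | hl
    · rw [← mul_assoc, hx hl]
    · rw [mul_comm (φ x), ← mul_assoc, hy hl]

theorem semi_absorb' {S : Type} [CommSemigroup S] (hS : ∀ x : S, x * x = x) (φ : Word →ₙ* S)
    (w' : Word) (w : Word) : letters w ⊆ letters w' → φ w * φ w' = φ w' := by
  induction w using word_ind with
  | h1 i =>
    intro h
    exact semi_absorb hS φ i w' (h (by rw [letters_of]; exact Finset.mem_singleton_self i))
  | h2 x y hx hy =>
    intro h
    rw [letters_mul] at h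
    rw [map_mul, mul_assoc, hy (Finset.union_subset_right h), hx (Finset.union_subset_left h)]

theorem hasSL_of_letters (h : ∀ e ∈ Γ, letters e.1 = letters e.2) : HasSemilattices Γ := by
  intro S _ hS e he φ
  have h1 := semi_absorb' hS φ e.2 e.1 (h e he).subset
  have h2 := semi_absorb' hS φ e.1 e.2 (h e he).symm.subset
  rw [← h2, mul_comm, h1]

theorem jab_letter {S : Type} [Semigroup S] {e : S} (φ : Word →ₙ* S) (l : ℕ) (w : Word) :
    l ∈ letters w → Jab e (φ w) → Jab e (φ (FreeSemigroup.of l)) := by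
  induction w using word_ind with
  | h1 i =>
    intro hl h
    rw [letters_of, Finset.mem_singleton] at hl
    rw [hl]; exact h
  | h2 x y hx hy =>
    intro hl h
    rw [letters_mul, Finset.mem_union] at hl
    rw [map_mul] at h
    rcases hl with hl | hl
    · exact hx hl (jab_of_mul_left h)
    · exact hy hl (jab_of_mul_right h)

/-- if the variety does not contain the semilattices, every idempotent lies in the least ideal -/
theorem jab_all (hnot : ¬ HasSemilattices Γ)
    {S : Type} [Semigroup S] (hS : InVar Γ S) (e : S) (he : e * e = e) (y : S) : Jab e y := by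
  have key : ∀ (w1 w2 : Word) (l : ℕ), l ∈ letters w1 → l ∉ letters w2 →
      (∀ φ : Word →ₙ* S, φ w1 = φ w2) → Jab e y := by
    intro w1 w2 l h1 h2 h3
    let φ : Word →ₙ* S := FreeSemigroup.lift (fun t => if t = l then y else e)
    have hφ1 : φ (FreeSemigroup.of l) = y := by
      change FreeSemigroup.lift _ _ = _
      rw [FreeSemigroup.lift_of, if_pos rfl]
    have hφ2 : ∀ w : Word, l ∉ letters w → φ w = e := by
      intro w
      induction w using word_ind with
      | h1 i =>
        intro hi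
        rw [letters_of, Finset.mem_singleton] at hi
        change FreeSemigroup.lift _ _ = _
        rw [FreeSemigroup.lift_of, if_neg (fun h => hi h.symm)]
      | h2 a b ha hb =>
        intro hi
        rw [letters_mul, Finset.mem_union, not_or] at hi
        rw [map_mul, ha hi.1, hb hi.2, he]
    have h4 : Jab e (φ w1) := by
      rw [h3 φ, hφ2 w2 h2]
      exact jab_self he
    have h5 := jab_letter φ l w1 h1 h4
    rwa [hφ1] at h5
  have : ¬ ∀ e ∈ Γ, letters e.1 = letters e.2 := fun hall => hnot (hasSL_of_letters hall)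
  push Not at this
  obtain ⟨e, he, hne⟩ := this
  by_cases hsub : letters e.1 ⊆ letters e.2
  · have : ¬ letters e.2 ⊆ letters e.1 := fun h' => hne (Finset.Subset.antisymm hsub h')
    obtain ⟨l, hl1, hl2⟩ := Finset.not_subset.mp this
    exact key e.2 e.1 l hl1 hl2 fun φ => (hS e he φ).symm
  · obtain ⟨l, hl1, hl2⟩ := Finset.not_subset.mp hsub
    exact key e.1 e.2 l hl1 hl2 fun φ => hS e he φ

theorem pw_all {j : ℕ}
    (hp : ∀ (S : Type) [Semigroup S], InVar Γ S → ∀ x : S, pw j x * pw j x = pw j x)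
    (hnot : ¬ HasSemilattices Γ) {S : Type} [Semigroup S] (hS : InVar Γ S) {e : S}
    (he : e * e = e) (y : S) : pw j (e * y * e) = e :=
  pw_eae_eq' (hp S hS) (fun e a b he _ _ => jab_all hnot hS e he (a * b)) he
    (jab_all hnot hS e he y)

/-! ### rectangular bands -/

theorem rect_idem {S : Type} [Semigroup S] (hr : ∀ x y : S, x * y * x = x) (x : S) :
    x * x = x := by
  calc x * x = (x * x * x) * x := by rw [hr]
    _ = x * (x * x) * x := by simp only [mul_assoc]
    _ = x := hr _ _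

theorem rect_mid {S : Type} [Semigroup S] (hr : ∀ x y : S, x * y * x = x) (x y z : S) :
    x * y * z = x * z := by
  calc x * y * z = x * y * (z * x * z) := by rw [hr]
    _ = (x * (y * z) * x) * z := by simp only [mul_assoc]
    _ = x * z := by rw [hr]

theorem exists_emb (m n : ℕ) (hm : 1 ≤ m) (hmn : m < n) :
    ∃ (ι : Fr Γ m →ₙ* Fr Γ n) (ρ : Fr Γ n →ₙ* Fr Γ m), (∀ y, ρ (ι y) = y) ∧
      (∀ i : Fin m, ι (gen Γ m i) = gen Γ n ⟨i, i.2.trans hmn⟩) ∧
      (∀ i : Fin n, m ≤ (i : ℕ) → ρ (gen Γ n i) = gen Γ m ⟨0, hm⟩) := by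
  obtain ⟨ι, hι⟩ := fr_lift (n := m) (fr_inVar (Γ := Γ) (n := n))
    (fun i : Fin m => gen Γ n ⟨i, i.2.trans hmn⟩)
  obtain ⟨ρ, hρ⟩ := fr_lift (n := n) (fr_inVar (Γ := Γ) (n := m))
    (fun i : Fin n => if h : (i : ℕ) < m then gen Γ m ⟨i, h⟩ else gen Γ m ⟨0, hm⟩)
  refine ⟨ι, ρ, ?_, hι, ?_⟩
  · intro y
    induction y using fr_ind with
    | h1 i => rw [hι, hρ, dif_pos i.2]
    | h2 x y hx hy => rw [map_mul, map_mul, hx, hy]
  · intro i hi
    rw [hρ, dif_neg (by omega)]

theorem not_separated_of_rect (hR : IsRect Γ) : ¬ Separated Γ := by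
  intro hsep
  refine hsep 2 3 (by norm_num) (by norm_num) (by norm_num) ?_
  have hr2 : ∀ x y : Fr Γ 2, x * y * x = x := hR _ fr_inVar
  have hr3 : ∀ x y : Fr Γ 3, x * y * x = x := hR _ fr_inVar
  intro u W _
  constructor
  · intro h φ
    classical
    set t := φ u with ht
    let a : Prop → Fr Γ 2 := fun P => if P then gen Γ 2 1 else gen Γ 2 0
    let ψ : Word →ₙ* Fr Γ 2 := FreeSemigroup.lift (fun l =>
      a (φ (FreeSemigroup.of l) * t = t) * a (t * φ (FreeSemigroup.of l) = t))
    have key : ∀ w : Word, ψ w = a (φ w * t = t) * a (t * φ w = t) := by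
      intro w
      induction w using word_ind with
      | h1 l =>
        change FreeSemigroup.lift _ _ = _
        rw [FreeSemigroup.lift_of]
      | h2 x y hx hy =>
        rw [map_mul, map_mul, hx, hy]
        have e1 : φ x * φ y * t = φ x * t := rect_mid hr3 _ _ _
        have e2 : t * (φ x * φ y) = t * φ y := by rw [← mul_assoc, rect_mid hr3]
        rw [e1, e2]
        simp only [mul_assoc]
        rw [← mul_assoc (a (t * φ x = t)), ← mul_assoc, rect_mid hr2]
    obtain ⟨w, hw, hψ⟩ := h ψ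
    refine ⟨w, hw, ?_⟩
    rw [key, key, ← ht] at hψ
    have htt : t * t = t := rect_idem hr3 t
    have ha1 : a (t * t = t) = gen Γ 2 1 := if_pos htt
    rw [ha1, rect_idem hr2] at hψ
    set y := φ w with hy
    obtain ⟨κ, hκ⟩ := fr_lift (n := 2) (fr_inVar (Γ := Γ) (n := 3)) ![y, t]
    have hκ0 : κ (gen Γ 2 0) = y := hκ 0
    have hκ1 : κ (gen Γ 2 1) = t := hκ 1
    have hκa : ∀ P : Prop, κ (a P) = if P then t else y := by
      intro P
      by_cases hP : P
      · change κ (if P then _ else _) = _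
        rw [if_pos hP, if_pos hP, hκ1]
      · change κ (if P then _ else _) = _
        rw [if_neg hP, if_neg hP, hκ0]
    have h5 := congrArg κ hψ
    rw [map_mul, hκa, hκa, hκ1] at h5
    by_cases c1 : y * t = t
    · by_cases c2 : t * y = t
      · calc t = t * y := c2.symm
          _ = y * t * y := by rw [c1]
          _ = y := hr3 _ _
      · rw [if_pos c1, if_neg c2] at h5
        exact absurd h5.symm c2
    · by_cases c2 : t * y = t
      · rw [if_neg c1, if_pos c2] at h5
        exact absurd h5.symm c1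
      · rw [if_neg c1, if_neg c2, rect_idem hr3] at h5
        exact h5
  · intro h φ
    obtain ⟨ι, ρ, hρι, -, -⟩ := exists_emb (Γ := Γ) 2 3 (by norm_num) (by norm_num)
    obtain ⟨w, hw, h1⟩ := h (ι.comp φ)
    refine ⟨w, hw, ?_⟩
    have h2 : ι (φ u) = ι (φ w) := h1
    rw [← hρι (φ u), h2, hρι]

theorem rect_of_bands (hP : PowLaw Γ 1) (hnot : ¬ HasSemilattices Γ) : IsRect Γ := by
  intro S _ hS x y
  have h : ∀ x : S, pw (0 + 1) x = x := hP S hS
  exact pw_eae_eq (j := 0) h (h x) (jab_all hnot hS x (h x) y)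

/-! ### locally finite varieties -/

theorem isolate {m n : ℕ} (hm : 1 ≤ m) (hn : 1 ≤ n) (hE : InclEquiv (Fr Γ m) (Fr Γ n))
    (v : Fr Γ n) : ∃ θ : Fr Γ n →ₙ* Fr Γ m, ∀ z, θ z = θ v → z = v := by
  let φ0 : Word →ₙ* Fr Γ n :=
    FreeSemigroup.lift (fun l => if hl : l < n then gen Γ n ⟨l, hl⟩ else gen Γ n ⟨0, hn⟩)
  let em : FreeSemigroup (Fin n) →ₙ* Word := FreeSemigroup.lift (fun i => FreeSemigroup.of (i : ℕ))
  have hem : ∀ w, φ0 (em w) = cls Γ n w := by
    intro w
    induction w using word_ind with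
    | h1 i =>
      change FreeSemigroup.lift _ (FreeSemigroup.lift _ _) = _
      rw [FreeSemigroup.lift_of, FreeSemigroup.lift_of, dif_pos i.2]
      rfl
    | h2 x y hx hy => rw [map_mul, map_mul, hx, hy, cls_mul]
  obtain ⟨u, hu⟩ := cls_surj v
  by_cases hW : ({w : Word | φ0 w ≠ v}).Nonempty
  · have h1 : ¬ SatIncl (Fr Γ n) (em u) {w : Word | φ0 w ≠ v} := by
      intro h
      obtain ⟨w, hw, h2⟩ := h φ0
      rw [hem, hu] at h2
      exact hw h2.symm
    rw [← hE _ _ hW] at h1
    unfold SatIncl at h1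
    push Not at h1
    obtain ⟨ψ, hψ⟩ := h1
    obtain ⟨θ, hθ⟩ := fr_lift (n := n) (fr_inVar (Γ := Γ) (n := m))
      (fun i => ψ (FreeSemigroup.of (i : ℕ)))
    have hθ' : ∀ w, θ (cls Γ n w) = ψ (em w) := by
      intro w
      induction w using word_ind with
      | h1 i =>
        change θ (gen Γ n i) = ψ (FreeSemigroup.lift _ _)
        rw [FreeSemigroup.lift_of]
        exact hθ i
      | h2 x y hx hy => rw [cls_mul, map_mul, hx, hy, map_mul, map_mul]
    refine ⟨θ, fun z hz => ?_⟩
    obtain ⟨w, rfl⟩ := cls_surj z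
    rw [← hu, hθ', hθ'] at hz
    by_contra hne
    exact hψ (em w) (by change φ0 (em w) ≠ v; rwa [hem]) hz.symm
  · rw [Set.not_nonempty_iff_eq_empty] at hW
    obtain ⟨θ, -⟩ := fr_lift (n := n) (fr_inVar (Γ := Γ) (n := m)) (fun _ => gen Γ m ⟨0, hm⟩)
    refine ⟨θ, fun z _ => ?_⟩
    obtain ⟨w, rfl⟩ := cls_surj z
    by_contra hne
    have : em w ∈ ({w : Word | φ0 w ≠ v}) := by
      change φ0 (em w) ≠ v
      rwa [hem]
    rw [hW] at this
    exact this

theorem law_of_equiv {j : ℕ}
    (hp : ∀ (S : Type) [Semigroup S], InVar Γ S → ∀ x : S, pw j x * pw j x = pw j x)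
    (hnot : ¬ HasSemilattices Γ)
    (hfin : ∀ n, Finite (Fr Γ n)) {m n : ℕ} (hm : 1 ≤ m) (hmn : m < n)
    (hE : InclEquiv (Fr Γ m) (Fr Γ n)) (S : Type) [Semigroup S] (hS : InVar Γ S) (x y : S) :
    pw j x * y * pw j x = pw j x * x * pw j x := by
  have hn : 1 ≤ n := by omega
  obtain ⟨ι, ρ, hρι, hι, hρ⟩ := exists_emb (Γ := Γ) m n hm hmn
  have hN : ∀ x : Fr Γ n, pw j x * pw j x = pw j x := hp _ fr_inVar
  have hM : ∀ x : Fr Γ m, pw j x * pw j x = pw j x := hp _ fr_inVar
  set a : Fr Γ n := gen Γ n ⟨0, hn⟩ with ha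
  set b : Fr Γ m := gen Γ m ⟨0, hm⟩ with hb
  have hιb : ι b = a := hι _
  set e : Fr Γ n := pw j a with he
  set f0 : Fr Γ m := pw j b with hf0
  have hee : e * e = e := hN a
  have hff : f0 * f0 = f0 := hM b
  have hιf : ι f0 = e := by rw [hf0, map_pw, hιb]
  obtain ⟨θ, hθ⟩ := isolate hm hn hE e
  let A : Set (Fr Γ n) := {z | e * z * e = z}
  have hA1 : ∀ z ∈ A, e * z = z := by
    intro z hz
    have hz' : e * z * e = z := hz
    rw [← hz', ← mul_assoc, ← mul_assoc, hee]
  have hA2 : ∀ z ∈ A, z * e = z := by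
    intro z hz
    have hz' : e * z * e = z := hz
    calc z * e = e * z * e * e := by rw [hz']
      _ = e * z * (e * e) := by rw [mul_assoc]
      _ = z := by rw [hee, hz']
  let hfun : Fr Γ n → Fr Γ n := fun z => ι (f0 * θ z * f0)
  have hmaps : ∀ z, hfun z ∈ A := by
    intro z
    change e * ι (f0 * θ z * f0) * e = ι (f0 * θ z * f0)
    rw [map_mul, map_mul, hιf]
    calc e * (e * ι (θ z) * e) * e = (e * e) * ι (θ z) * (e * e) := by simp only [mul_assoc]
      _ = e * ι (θ z) * e := by rw [hee]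
  have hιinj : ∀ y y', ι y = ι y' → y = y' := by
    intro y y' h
    rw [← hρι y, h, hρι]
  have hf : θ e * θ e = θ e := by rw [← map_mul, hee]
  have hfpow := pw_all hp hnot fr_inVar hf f0
  obtain ⟨s, hs⟩ : ∃ s, θ e = s * (f0 * θ e) := by
    obtain ⟨s, hs⟩ := pw_left j (θ e) (f0 * θ e)
    rw [← mul_assoc, hfpow] at hs
    exact ⟨s, hs⟩
  obtain ⟨t, ht⟩ : ∃ t, θ e = θ e * f0 * t := by
    obtain ⟨t, ht⟩ := pw_right j (θ e * f0) (θ e)
    rw [hfpow] at ht
    exact ⟨t, ht⟩
  have hrec : ∀ z ∈ A, θ z = s * (f0 * θ z * f0) * t := by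
    intro z hz
    have hz' : e * z * e = z := hz
    have h1 : θ z = θ e * θ z * θ e := by rw [← map_mul, ← map_mul, hz']
    calc θ z = θ e * θ z * θ e := h1
      _ = (s * (f0 * θ e)) * θ z * (θ e * f0 * t) := by rw [← hs, ← ht]
      _ = s * (f0 * (θ e * θ z * θ e) * f0) * t := by simp only [mul_assoc]
      _ = s * (f0 * θ z * f0) * t := by rw [← h1]
  have hinj : ∀ z ∈ A, ∀ z' ∈ A, hfun z = hfun z' → z = z' := by
    intro z hz z' hz' hzz
    have h1 : θ z = θ z' := by
      rw [hrec z hz, hrec z' hz', hιinj _ _ hzz]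
    have h2 : pw j z = e := by
      have := pw_all hp hnot fr_inVar hee z
      have hz2 : e * z * e = z := hz
      rwa [hz2] at this
    have h3 : pw (j + j + 1) z = e := by rw [← pw_mul, h2, hee]
    have h4 : θ (pw (j + j) z * z') = θ e := by
      rw [map_mul, ← h1, ← map_mul, ← pw_succ, h3]
    have h5 := hθ _ h4
    have h6 : z * (pw (j + j) z * z') = z * e := by rw [h5]
    rw [← mul_assoc, ← pw_succ', h3, hA1 z' hz', hA2 z hz] at h6
    exact h6.symm
  have hfinA : Finite A := by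
    have := hfin n
    exact Subtype.finite
  let H : A → A := fun z => ⟨hfun z.1, hmaps z.1⟩
  have Hinj : Function.Injective H := by
    intro z z' h
    exact Subtype.ext (hinj z.1 z.2 z'.1 z'.2 (congrArg Subtype.val h))
  have Hsurj : Function.Surjective H := Finite.surjective_of_injective Hinj
  set c : Fr Γ n := gen Γ n ⟨n - 1, by omega⟩ with hc
  have hcA : e * c * e ∈ A := by
    change e * (e * c * e) * e = e * c * e
    calc e * (e * c * e) * e = (e * e) * c * (e * e) := by simp only [mul_assoc]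
      _ = e * c * e := by rw [hee]
  obtain ⟨z, hz⟩ := Hsurj ⟨e * c * e, hcA⟩
  have hz1 : ι (f0 * θ z * f0) = e * c * e := congrArg Subtype.val hz
  have hρe : ρ e = f0 := by rw [← hιf, hρι]
  have hρc : ρ c = b := hρ _ (by change m ≤ n - 1; omega)
  have h7 : f0 * θ z * f0 = f0 * b * f0 := by
    have := congrArg ρ hz1
    rwa [hρι, map_mul, map_mul, hρe, hρc] at this
  have h8 : e * c * e = e * a * e := by
    rw [← hz1, h7, map_mul, map_mul, hιf, hιb]
  -- transfer to an arbitrary member of the variety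
  obtain ⟨κ, hκ⟩ := fr_lift (n := n) hS (fun i => if (i : ℕ) = 0 then x else y)
  have hκa : κ a = x := by rw [ha, hκ, if_pos rfl]
  have hκc : κ c = y := by
    rw [hc, hκ, if_neg]
    change ¬ (n - 1 = 0)
    omega
  have h9 := congrArg κ h8
  rwa [map_mul, map_mul, map_mul, map_mul, hκc, hκa, he, map_pw, hκa] at h9

/-- locally finite varieties are periodic -/
theorem periodic_of_finite (hfin : Finite (Fr Γ 1)) : Periodic Γ := by
  set g := gen Γ 1 0 with hg
  have hni : ¬ Function.Injective (fun i : ℕ => pw i g) := not_injective_infinite_finite _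
  have : ∃ a b, a < b ∧ pw a g = pw b g := by
    unfold Function.Injective at hni
    push Not at hni
    obtain ⟨a, b, h1, h2⟩ := hni
    rcases lt_or_gt_of_ne h2 with h | h
    · exact ⟨a, b, h, h1⟩
    · exact ⟨b, a, h, h1.symm⟩
  obtain ⟨a, b, hab, h1⟩ := this
  obtain ⟨d, hd, rfl⟩ : ∃ d, 1 ≤ d ∧ b = a + d := ⟨b - a, by omega, by omega⟩
  have h2 : ∀ i, pw (a + i) g = pw (a + i + d) g := by
    intro i
    induction i with
    | zero => exact h1
    | succ i ih =>
      have e1 : a + (i + 1) + d = (a + i + d) + 1 := by ring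
      have e2 : a + (i + 1) = (a + i) + 1 := by ring
      rw [e1, e2, pw_succ, pw_succ, ih]
  have h3 : ∀ t i, pw (a + i) g = pw (a + i + t * d) g := by
    intro t
    induction t with
    | zero => intro i; rw [zero_mul, add_zero]
    | succ t ih =>
      intro i
      rw [ih i]
      have e1 : a + i + t * d = a + (i + t * d) := by ring
      have e2 : a + i + (t + 1) * d = a + (i + t * d) + d := by ring
      rw [e1, e2]
      exact h2 _
  have hpos : a + 1 ≤ (a + 1) * d := Nat.le_mul_of_pos_right _ hd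
  obtain ⟨i, hi⟩ : ∃ i, (a + 1) * d = a + i + 1 := ⟨(a + 1) * d - a - 1, by omega⟩
  have h4 : pw (a + i) g * pw (a + i) g = pw (a + i) g := by
    rw [pw_mul]
    have e1 : a + i + (a + i) + 1 = a + i + (a + 1) * d := by rw [hi]; ring
    rw [e1, ← h3]
  refine ⟨a + i, fun S _ hS x => ?_⟩
  obtain ⟨κ, hκ⟩ := fr_lift (n := 1) hS (fun _ => x)
  have h5 := congrArg κ h4
  rw [map_mul, map_pw, hg, hκ] at h5
  exact h5

/-- locally finite, no semilattices, but a nontrivial group -/
theorem main_group (hfin : ∀ n, Finite (Fr Γ n)) (hnot : ¬ HasSemilattices Γ)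
    (hG : HasGroup Γ) : Separated Γ := by
  obtain ⟨j, hp⟩ := periodic_of_finite (hfin 1)
  obtain ⟨G, _, hnt, hGV⟩ := hG
  have hmain : ∀ m n, 1 ≤ m → m < n → ¬ InclEquiv (Fr Γ m) (Fr Γ n) := by
    intro m n hm hmn hE
    obtain ⟨x, y, hxy⟩ := hnt.exists_pair_ne
    have h1 := law_of_equiv hp hnot hfin hm hmn hE G hGV x y
    exact hxy (mul_left_cancel (mul_right_cancel h1)).symm
  intro m n hm hn hmn hE
  rcases lt_or_gt_of_ne hmn with hlt | hlt
  · exact hmain m n hm hlt hE
  · exact hmain n m hn hlt fun u W hW => (hE u W hW).symm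

/-- completely regular case -/
theorem rect_of_equiv {j : ℕ} (hP : PowLaw Γ (j + 1)) (hnot : ¬ HasSemilattices Γ)
    (hfin : ∀ n, Finite (Fr Γ n)) {m n : ℕ} (hm : 1 ≤ m) (hmn : m < n)
    (hE : InclEquiv (Fr Γ m) (Fr Γ n)) : IsRect Γ := by
  have hp : ∀ (S : Type) [Semigroup S], InVar Γ S → ∀ x : S, pw j x * pw j x = pw j x :=
    fun S _ hS => idem_of_law (hP S hS)
  intro S _ hS
  have hSl : ∀ x : S, pw (j + 1) x = x := hP S hS
  have hid : ∀ x : S, x * x = x := by
    intro x
    have h9 := law_of_equiv hp hnot hfin hm hmn hE S hS x (pw j x)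
    rw [idem_of_law hSl, idem_of_law hSl, ← pw_succ, hSl, ← pw_succ', hSl] at h9
    have h10 := hSl x
    rw [pw_succ, h9] at h10
    exact h10
  intro x y
  have h := pw_all hp hnot hS (hid x) y
  rwa [pw_idem (hid _)] at h

theorem dsub_of_law {j : ℕ} (hP : PowLaw Γ (j + 1)) {S : Type} [Semigroup S] (hS : InVar Γ S)
    (e a b : S) (he : e * e = e) (ha : Jab e a) (hb : Jab e b) : Jab e (a * b) :=
  jab_mul (hP S hS) he ha hb

theorem main_cr {k : ℕ} (hk : 1 ≤ k) (hP : PowLaw Γ k) (hSL : HasSemilattices Γ) :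
    Separated Γ := by
  obtain ⟨j, rfl⟩ : ∃ j, k = j + 1 := ⟨k - 1, by omega⟩
  exact separated_of_semilattices (fun S _ hS => idem_of_law (hP S hS))
    (fun _ _ hS => dsub_of_law hP hS) hSL

theorem main_lf {k : ℕ} (hk : 1 ≤ k) (hP : PowLaw Γ k) (hfin : ∀ n, Finite (Fr Γ n)) :
    Separated Γ ↔ ¬ IsRect Γ := by
  refine ⟨fun h hR => not_separated_of_rect hR h, fun hR => ?_⟩
  by_cases hSL : HasSemilattices Γ
  · exact main_cr hk hP hSL
  · obtain ⟨j, rfl⟩ : ∃ j, k = j + 1 := ⟨k - 1, by omega⟩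
    intro m n hm hn hmn hE
    rcases lt_or_gt_of_ne hmn with hlt | hlt
    · exact hR (rect_of_equiv hP hSL hfin hm hlt hE)
    · exact hR (rect_of_equiv hP hSL hfin hn hlt fun u W hW => (hE u W hW).symm)

theorem main_bands (hP : PowLaw Γ 1) : Separated Γ ↔ HasSemilattices Γ := by
  refine ⟨fun h => ?_, fun h => main_cr le_rfl hP h⟩
  by_contra hnot
  exact not_separated_of_rect (rect_of_bands hP hnot) h

end
end Pool.Agent.BInc
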